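import Pool.Agent.HP25.NI.F
import Pool.Agent.HP25.OS.G
import Pool.Agent.R482.Sing
import Pool.Agent.R482.Vm

/-!
# The joint conjecture for all shifts near the values of smoothly varying functions of non-integral order at almost all
integers with restricted digits

New: the decay of the characteristic functions and the moments for smoothly varying functions of non-integral order at
integers with random digits (`Pool.Agent.HP25.NI`), and the estimate with arbitrary coefficients for one shift which is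
close to a random real number with a bounded moment (`Pool.Agent.HP25.OS`). From the starting files: the passage from one
shift to the prime tuples (`Pool.Agent.N469.PT.ws_final`), elementary facts on the growth of smoothly varying functions
(`Pool.Agent.N193.PS.Sv`).
-/

set_option autoImplicit false

namespace Pool.Agent.Results.MP_e6fa8b_nt.NonIntegralOrderShifts

open Finset Filter Topology

/-- `f` is smoothly varying of order `c`: it is infinitely differentiable and positive for large arguments, and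
`t ^ m f⁽ᵐ⁾(t) / f(t) → c (c - 1) ... (c - m + 1)` for every `m`. -/
def SmoothlyVarying (c : ℝ) (f : ℝ → ℝ) : Prop :=
  (∃ t₀ : ℝ, ∀ t > t₀, ContDiffAt ℝ ((⊤ : ℕ∞) : WithTop ℕ∞) f t ∧ 0 < f t) ∧
  ∀ m : ℕ, Tendsto (fun t => t ^ m * iteratedDeriv m f t / f t) atTop (𝓝 (∏ i ∈ range m, (c - i)))

lemma sv_of (c : ℝ) (hc : 0 < c) (hn : ∀ m : ℕ, c ≠ m) (f : ℝ → ℝ) (h : SmoothlyVarying c f) :
    Pool.Agent.N193.PS.SV c (fun m => iteratedDeriv m f) := by
  obtain ⟨⟨t₀, h0⟩, hlim⟩ := h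
  refine ⟨hc, hn, ⟨t₀ + 1, fun m t ht => ?_⟩, ?_, fun m => ?_⟩
  · have h1 := (h0 t (by linarith)).1
    have h2 : DifferentiableAt ℝ (iteratedDeriv m f) t := by
      rw [iteratedDeriv_eq_equiv_comp, LinearIsometryEquiv.comp_differentiableAt_iff]
      exact h1.differentiableAt_iteratedFDeriv (by exact_mod_cast WithTop.coe_lt_top m)
    show HasDerivAt (iteratedDeriv m f) (iteratedDeriv (m + 1) f t) t
    rw [iteratedDeriv_succ]
    exact h2.hasDerivAt
  · filter_upwards [eventually_gt_atTop t₀] with t ht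
    simp only [iteratedDeriv_zero]
    exact (h0 t ht).2
  · simpa only [iteratedDeriv_zero] using hlim m

/-- The integers `n < b ^ k` whose digit number `j` in base `b` belongs to `D j`, for all `j < k`. -/
def digitSet (b : ℕ) (D : ℕ → Finset ℕ) (k : ℕ) : Finset ℕ :=
  (range (b ^ k)).filter fun n => ∀ j < k, n / b ^ j % b ∈ D j

/-- For every prime `p` there is an integer `r` such that `p` divides none of the `r + h i`. -/
def Admissible {k : ℕ} (h : Fin k → ℕ) : Prop := ∀ p : ℕ, p.Prime → ∃ r : ℤ, ∀ i, ¬ (p : ℤ) ∣ r + h i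

/-- The number `ν_p` of the distinct residues modulo `p` among the shifts `h i`. -/
def nu {k : ℕ} (h : Fin k → ℕ) (p : ℕ) : ℕ := (univ.image fun i => h i % p).card

/-- The product of the factors `β_p` of the singular series of the shifts `h i` over the primes `p ≤ z`. -/
noncomputable def sing {k : ℕ} (h : Fin k → ℕ) (z : ℕ) : ℝ :=
  ∏ p ∈ (Icc 1 z).filter Nat.Prime, ((1 - 1 / (p : ℝ)) ^ k)⁻¹ * (1 - (nu h p : ℝ) / p)

/-- The singular series `S` of the shifts `h i` converges, is positive if the shifts are admissible, and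
`|∑_{n ≤ N} ∏ i, Λ(n + h i) - S N| ≤ N / log ^ U N`. -/
def HardyLittlewood (U N : ℕ) {k : ℕ} (h : Fin k → ℕ) : Prop :=
  ∃ S : ℝ, (Admissible h → 0 < S) ∧ Tendsto (sing h) atTop (nhds S) ∧
    |∑ n ∈ Icc 1 N, ∏ i, ArithmeticFunction.vonMangoldt (n + h i) - S * N| ≤ N / Real.log N ^ U

/-- The Liouville function. -/
noncomputable def liouville (n : ℕ) : ℝ := (-1) ^ ArithmeticFunction.cardFactors n

/-- `|∑_{n ≤ N} θ(n) ∏ i, Λ(n + h i) ∏ j, λ(n + h' j)| ≤ N / log ^ U N` -/
def Small (U N : ℕ) (θ : ℕ → ℝ) {s t : ℕ} (h : Fin s → ℕ) (h' : Fin t → ℕ) : Prop :=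
  |∑ n ∈ Icc 1 N, θ n * (∏ i, ArithmeticFunction.vonMangoldt (n + h i)) * ∏ j, liouville (n + h' j)| ≤ N / Real.log N ^ U

lemma sing_eq {k : ℕ} (a : Fin k → ℕ) :
    (fun z => Pool.Agent.H373R2.T7.singZ (fun i => (a i : ℤ)) z) = sing (Fin.cons 0 a : Fin (k + 1) → ℕ) := by
  funext z
  have h1 := Pool.Agent.R482.Sg.singZ_sg (Fin.cons 0 a : Fin (k + 1) → ℕ) z
  simp only [Fin.cons_zero, Fin.cons_succ, Nat.cast_zero, sub_zero] at h1
  rw [h1]
  rfl

lemma adm_eq {k : ℕ} (a : Fin k → ℕ) :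
    Pool.Agent.H373R2.T7.Admissible (fun i => (a i : ℤ)) ↔ Admissible (Fin.cons 0 a : Fin (k + 1) → ℕ) := by
  unfold Pool.Agent.H373R2.T7.Admissible Admissible
  apply forall_congr'
  intro p
  apply imp_congr_right
  intro _
  apply exists_congr
  intro r
  rw [Fin.forall_fin_succ]
  simp only [Fin.cons_zero, Fin.cons_succ, Nat.cast_zero, add_zero]

open Classical in
/-- Let `s`, `t`, bases `b i ≥ 2`, smoothly varying functions `f i` of the orders `c i > 0`, where the `c i` are not integers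
(`i < s + t`), `T ≥ 1`, `κ`, `U` and `W` be fixed. Let `N` be large, let the numbers `k i` of digits satisfy
`N / T ≤ f i (b i ^ k i) ≤ T N`, let the integers of the sets `digitSet` have their `j`-th digit in an arbitrary set `D i j`
of at least two digits in base `b i`, and let `θ l` be at most `log ^ κ N` functions bounded by `log ^ κ N` on `[1, N]`. Then
for all vectors `(n i)` of elements of these sets, with the exception of at most a proportion `1 / log ^ U N` of them, ALL the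
integers `h i ≥ 0`, `i < s + t`, with `|h i - f i (n i)| ≤ log ^ W N` have the following properties: the formula of Hardy and
Littlewood holds for the shifts `0, h 1, ..., h s` (if `s ≥ 1`), and, if `t ≥ 1`, the correlations of `Λ` at the shifts
`h 1, ..., h s` and of `λ` at the shifts `h (s + 1), ..., h (s + t)`, weighted with any `θ l` (for instance `1` or `Λ`), are
at most `N / log ^ U N`. -/
theorem result (s t : ℕ) (b : Fin (s + t) → ℕ) (hb : ∀ i, 2 ≤ b i) (c : Fin (s + t) → ℝ) (hc : ∀ i, 0 < c i)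
    (hn : ∀ i, ∀ m : ℕ, c i ≠ m) (f : Fin (s + t) → ℝ → ℝ) (hf : ∀ i, SmoothlyVarying (c i) (f i)) (T κ U W : ℕ) (hT : 1 ≤ T) :
    ∃ N₀ : ℕ, ∀ N, N₀ ≤ N → ∀ k : Fin (s + t) → ℕ, (∀ i, f i ((b i : ℝ) ^ k i) ≤ T * N ∧ N ≤ T * f i ((b i : ℝ) ^ k i)) →
      ∀ D : Fin (s + t) → ℕ → Finset ℕ, (∀ i, ∀ j < k i, D i j ⊆ range (b i) ∧ 2 ≤ (D i j).card) →
      ∀ L : ℕ, (L : ℝ) ≤ Real.log N ^ κ → ∀ θ : Fin L → ℕ → ℝ, (∀ l, ∀ n ∈ Icc 1 N, |θ l n| ≤ Real.log N ^ κ) →
      (((Fintype.piFinset fun i => digitSet (b i) (D i) (k i)).filter fun n =>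
        ¬ ∀ h : Fin (s + t) → ℕ, (∀ i, |(h i : ℝ) - f i (n i)| ≤ Real.log N ^ W) →
          (1 ≤ s → HardyLittlewood U N (Fin.cons 0 fun i => h (Fin.castAdd t i) : Fin (s + 1) → ℕ)) ∧
          (1 ≤ t → ∀ l, Small U N (θ l) (fun i => h (Fin.castAdd t i)) fun j => h (Fin.natAdd s j))).card : ℝ) ≤
        ((Fintype.piFinset fun i => digitSet (b i) (D i) (k i)).card : ℝ) / Real.log N ^ U := by
  obtain ⟨q, C₀, F, T', W', U', hq, hC₀, hTT, hUU, N1, h1⟩ := Pool.Agent.HP25.NI.near_svs (s + t) b hb c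
    (fun i m => iteratedDeriv m (f i)) (fun i => sv_of (c i) (hc i) (hn i) (f i) (hf i)) T W U hT
  simp only [iteratedDeriv_zero] at h1
  obtain ⟨N2, h2⟩ := Pool.Agent.HP25.OS.joint_laws s t κ U' q hq C₀ hC₀ F T' W' (hT.trans hTT)
  obtain ⟨N3, h3⟩ := Pool.Agent.R482.Vm.vm_of_tuple s U (2 * T)
  obtain ⟨N4, hN4⟩ : ∃ N4 : ℕ, ∀ N : ℕ, N4 ≤ N → 1 ≤ Real.log N ∧ Real.log N ^ W ≤ N := by
    have g1 := (tendsto_natCast_atTop_atTop (R := ℝ)).eventually
      ((isLittleO_log_rpow_atTop (r := 1 / ((W : ℝ) + 1)) (by positivity)).def (c := 1) one_pos)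
    have g2 := (tendsto_natCast_atTop_atTop (R := ℝ)).eventually_ge_atTop (Real.exp 1)
    obtain ⟨n0, g3⟩ := eventually_atTop.1 (g1.and g2)
    refine ⟨n0 + 1, fun N hN => ?_⟩
    obtain ⟨g4, g5⟩ := g3 N (by omega)
    have hN1 : (1 : ℝ) ≤ N := by exact_mod_cast (by omega : 1 ≤ N)
    have hN0 : (0 : ℝ) < N := by linarith
    have hl : 1 ≤ Real.log N := by
      rw [Real.le_log_iff_exp_le hN0]
      exact g5
    refine ⟨hl, ?_⟩
    rw [Real.norm_of_nonneg (by linarith), Real.norm_of_nonneg (by positivity), one_mul] at g4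
    calc Real.log N ^ W ≤ ((N : ℝ) ^ (1 / ((W : ℝ) + 1))) ^ W := pow_le_pow_left₀ (by linarith) g4 W
      _ = (N : ℝ) ^ (1 / ((W : ℝ) + 1) * W) := by rw [Real.rpow_mul hN0.le, Real.rpow_natCast]
      _ ≤ (N : ℝ) ^ (1 : ℝ) := by
          apply Real.rpow_le_rpow_of_exponent_le hN1
          rw [one_div, inv_mul_le_iff₀ (by positivity)]
          linarith
      _ = N := Real.rpow_one _
  refine ⟨N1 + N2 + N3 + N4 + 3, fun N hN k hk D hD L hL θ hθ => ?_⟩
  obtain ⟨hl1, hlW⟩ := hN4 N (by omega)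
  have hTr : (1 : ℝ) ≤ T := by exact_mod_cast hT
  have hNr : (0 : ℝ) ≤ N := Nat.cast_nonneg _
  have hmono : ∀ V V' : ℕ, V ≤ V' → (N : ℝ) / Real.log N ^ V' ≤ N / Real.log N ^ V := fun V V' hV =>
    div_le_div_of_nonneg_left hNr (by positivity) (pow_le_pow_right₀ hl1 hV)
  -- the property, for shifts of the right size
  obtain ⟨hsz, h4⟩ := h1 N (by omega) (fun h => ¬ ((1 ≤ s → Pool.Agent.W93.TD.HLs 1 (U' + 1) N (fun i : Fin s => h (Fin.castAdd t i))) ∧
      (1 ≤ t → ∀ l, |Pool.Agent.HP25.OS.corr (θ l) N h| ≤ N / Real.log N ^ U'))) (fun Ω p hlaw _ => by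
      convert h2 N (by omega) L hL θ hθ Ω p hlaw) k hk D hD
  refine le_trans (Nat.cast_le.2 (card_le_card ?_)) h4
  intro n hn
  rw [mem_filter] at hn ⊢
  refine ⟨hn.1, ?_⟩
  obtain ⟨hmem, h5⟩ := hn
  push Not at h5
  obtain ⟨h, hh, h6⟩ := h5
  refine ⟨h, hh, fun h7 => ?_⟩
  obtain ⟨h8, h9⟩ := h7
  have hsmall : 1 ≤ t → ∀ l, Small U N (θ l) (fun i => h (Fin.castAdd t i)) fun j => h (Fin.natAdd s j) := by
    intro ht l
    exact (h9 ht l).trans (hmono U U' hUU)
  have hHL : 1 ≤ s → HardyLittlewood U N (Fin.cons 0 fun i => h (Fin.castAdd t i) : Fin (s + 1) → ℕ) := by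
    intro hs
    obtain ⟨S, q1, q2, q3⟩ := h8 hs
    refine ⟨S, fun had => (q3 ((adm_eq _).2 had)).1, ?_, ?_⟩
    · rw [← sing_eq]
      exact q1
    · have g1 := h3 N (by omega) (fun i => h (Fin.castAdd t i)) (fun i => by
        have g2 := (abs_le.1 (hh (Fin.castAdd t i))).2
        have g3 := hsz (Fin.castAdd t i) _ (Fintype.mem_piFinset.1 hmem (Fin.castAdd t i))
        have g4 : (h (Fin.castAdd t i) : ℝ) ≤ ((2 * T * N : ℕ) : ℝ) := by
          push_cast
          nlinarith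
        exact_mod_cast g4) S (q2.trans (hmono (U + 1) (U' + 1) (by omega)))
      refine le_trans (le_of_eq ?_) g1
      congr 2
      apply sum_congr rfl
      intro n _
      rw [Fin.prod_univ_succ, Fin.cons_zero, add_zero]
      simp only [Fin.cons_succ]
  obtain ⟨ht, l, hl⟩ := h6 hHL
  exact hl (hsmall ht l)

end Pool.Agent.Results.MP_e6fa8b_nt.NonIntegralOrderShifts
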