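import Pool.Agent.HP25.PC.D

/-!
# Chowla's conjecture for `f(T) (α T + h)`: the exceptional set of the constants `h` has Fourier dimension zero

Let `ν` be ANY probability measure on a bounded interval whose Fourier transform decays at least as fast as some power
`|t| ^ (-δ)`, `δ > 0` (it may be carried by a set of arbitrarily small Hausdorff dimension), and let `x_k ≥ exp (k ^ c)`. For
`ν`-almost every `y`, for all large `k`, ALL the integers `h` with `|h - x_k y| ≤ log ^ W x_k` satisfy
`|∑ λ(f(n) (α n + h))| ≤ x_k / log ^ U x_k` for all windows and progressions, for all members `(f, α)` of an arbitrary family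
of at most `log ^ T x_k` pairs of an integer polynomial and a positive integer, which may depend on `k`.

Method: bounded moments of the random real numbers `x_k y` (`Pool/Agent/HP25/FD`), the estimate for one random shift with
arbitrary coefficients under a bounded moment (`Pool/Agent/HP25/OS`), windows and progressions (`Pool/Agent/HP25/PC`).
-/

set_option autoImplicit false

namespace Pool.Agent.Results.MP_d639b3_nt.FourierDimensionZero

open Finset MeasureTheory Filter Topology

/-- The Liouville function on the integers, `λ(-m) = λ(m)` and `λ(0) = 0`. -/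
def lam (m : ℤ) : ℤ := if m = 0 then 0 else (-1) ^ ArithmeticFunction.cardFactors m.natAbs

/-- For all `l`, all residue classes `r` modulo `q ≤ log ^ T x` and all integers `u`, `w` with `α l |u| ≤ B x` and
`α l |w| ≤ B x`: the sum of `λ(f l (n) (α l n + h))` over the integers `n` with `u ≤ n ≤ w` and `n ≡ r mod q` is at most
`x / log ^ U x` in absolute value. -/
def Small (B T U : ℕ) (x : ℝ) {L : ℕ} (f : Fin L → Polynomial ℤ) (α : Fin L → ℕ) (h : ℤ) : Prop :=
  ∀ l, ∀ q : ℕ, 1 ≤ q → (q : ℝ) ≤ Real.log x ^ T → ∀ r u w : ℤ, α l * |(u : ℝ)| ≤ B * x → α l * |(w : ℝ)| ≤ B * x →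
    |((∑ n ∈ (Icc u w).filter (fun n => n ≡ r [ZMOD q]), lam ((f l).eval n * (α l * n + h)) : ℤ) : ℝ)| ≤ x / Real.log x ^ U

open Pool.Agent.TH872.Sq (fx liF nice_liF)
open Pool.Agent.HP25.RD (ex)
open Pool.Agent.HP25.PC (wsum decay_law ae_seqR)

/-- the real Liouville function -/
noncomputable def lamR (n : ℤ) : ℝ := if n = 0 then 0 else (-1) ^ ArithmeticFunction.cardFactors n.natAbs

lemma lamR_eq (m : ℤ) : ((lam m : ℤ) : ℝ) = lamR m := by
  unfold lam lamR
  split_ifs
  · simp
  · push_cast; rfl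

lemma lamR_mul (m n : ℤ) : lamR (m * n) = lamR m * lamR n := by
  unfold lamR
  by_cases hm : m = 0
  · rw [if_pos (by rw [hm, zero_mul]), if_pos hm, zero_mul]
  by_cases hn : n = 0
  · rw [if_pos (by rw [hn, mul_zero]), if_pos hn, mul_zero]
  rw [if_neg (mul_ne_zero hm hn), if_neg hm, if_neg hn, Int.natAbs_mul,
    ArithmeticFunction.cardFactors_mul (Int.natAbs_ne_zero.2 hm) (Int.natAbs_ne_zero.2 hn), pow_add]

lemma lamR_abs (m : ℤ) : |lamR m| ≤ 1 := by
  unfold lamR
  split_ifs
  · rw [abs_zero]; exact zero_le_one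
  · rw [abs_pow, abs_neg, abs_one, one_pow]

lemma ex_eq (x : ℤ) : ex liF x = lamR x := by
  unfold ex fx lamR liF
  rcases lt_trichotomy x 0 with h | h | h
  · rw [if_neg (by omega), if_pos (by omega), if_neg (by omega), zero_add]
    congr 2
    omega
  · rw [if_neg (by omega), if_neg (by omega), if_pos h, add_zero]
  · rw [if_pos (by omega), if_neg (by omega), if_neg (by omega), add_zero]
    congr 2
    omega

lemma sum_eq (g : Polynomial ℤ) (α : ℕ) (h : ℤ) (q : ℕ) (r u w : ℤ) :
    ((∑ n ∈ (Icc u w).filter (fun n => n ≡ r [ZMOD q]), lam (g.eval n * (α * n + h)) : ℤ) : ℝ) =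
      wsum liF (fun n => lamR (g.eval n)) α h q r u w := by
  unfold wsum
  push_cast
  apply sum_congr rfl
  intro n _
  rw [lamR_eq, lamR_mul, ex_eq]

/-- Let `C`, `δ > 0`, `c > 0`, `A`, `B`, `T`, `W` and `U` be fixed, let `ν` be a probability measure on `[0, A]` with
`|E exp (i t y)| ≤ C |t| ^ (-δ)` for all `t`, and let `x k ≥ exp (k ^ c)` for all large `k`. For every `k` let at most
`log ^ T (x k)` pairs of an integer polynomial `f k l` and of an integer `α k l ≥ 1` be given. Then for `ν`-almost every `y`,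
for all large `k`, ALL the integers `h` with `|h - y x_k| ≤ log ^ W (x k)` satisfy `Small`. -/
theorem result (C δ c : ℝ) (hδ : 0 < δ) (hc : 0 < c) (A B T W U : ℕ) (ν : Measure ℝ) [IsProbabilityMeasure ν]
    (hν : ν (Set.Icc (0 : ℝ) A)ᶜ = 0) (hdec : ∀ t : ℝ, ‖charFun ν t‖ * |t| ^ δ ≤ C)
    (x : ℕ → ℝ) (hx : ∀ᶠ k : ℕ in atTop, Real.exp ((k : ℝ) ^ c) ≤ x k)
    (L : ℕ → ℕ) (hL : ∀ k, (L k : ℝ) ≤ Real.log (x k) ^ T) (f : ∀ k, Fin (L k) → Polynomial ℤ) (α : ∀ k, Fin (L k) → ℕ)
    (hα : ∀ k l, 1 ≤ α k l) :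
    ∀ᵐ y ∂ν, ∀ᶠ k : ℕ in atTop, ∀ h : ℤ, |(h : ℝ) - x k * y| ≤ Real.log (x k) ^ W → Small B T U (x k) (f k) (α k) h := by
  have key := ae_seqR ν x c hc hx (fun k => {y | ¬ ∀ h : ℤ, |(h : ℝ) - x k * y| ≤ Real.log (x k) ^ W →
    Small B T U (x k) (f k) (α k) h}) (fun U' => by
      obtain ⟨K₀, hK₀⟩ := decay_law C δ hδ liF nice_liF A B T W (U + U')
      refine ⟨K₀ + 3, fun k hk => ?_⟩
      have hk3 : (3 : ℝ) ≤ x k := le_trans (by exact_mod_cast (by omega : 3 ≤ K₀ + 3)) hk
      have hx0 : 0 ≤ x k := by linarith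
      have hl1 : 1 ≤ Real.log (x k) := by
        rw [Real.le_log_iff_exp_le (by linarith)]
        have := Real.exp_one_lt_d9
        linarith
      have h1 := hK₀ (x k) (le_trans (by exact_mod_cast (by omega : K₀ ≤ K₀ + 3)) hk) ν hν hdec (L k) (hL k)
        (fun l n => lamR ((f k l).eval n)) (fun l n => lamR_abs _) (α k) (hα k)
      refine le_trans (measureReal_mono ?_) (h1.trans ?_)
      · intro y hy
        simp only [Set.mem_ofPred_eq] at hy ⊢
        push Not at hy
        obtain ⟨h, h2, h3⟩ := hy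
        unfold Small at h3
        push Not at h3
        obtain ⟨l, q, h4, h5, r, u, w, h6, h7, h8⟩ := h3
        refine ⟨h, h2, l, q, r, u, w, h4, h5, h6, h7, ?_⟩
        rw [← sum_eq]
        refine lt_of_le_of_lt ?_ h8
        apply div_le_div_of_nonneg_left hx0 (by positivity)
        exact pow_le_pow_right₀ hl1 (by omega)
      · apply one_div_le_one_div_of_le (by positivity)
        exact pow_le_pow_right₀ hl1 (by omega))
  filter_upwards [key] with y hy
  filter_upwards [hy] with k hk
  simpa using hk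

end Pool.Agent.Results.MP_d639b3_nt.FourierDimensionZero
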