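import Pool.Agent.HP25.TW.F
import Pool.Agent.Results.MP_ab3ecb_nt.MetricSequences

/-!
# MP_ab3ecb_nt: adelic points of twists of cyclic coverings by integers with random digits, by the
# prefixes of normal numbers, and along metric sequences for all measures with Fourier decay

The curves are those of the starting results `TypesOfOrthogonalPoints` and `MetricSequences` (whose
definitions are used): `b y ^ 2 = ∏ k, G k (z, w)` is a hyperelliptic curve `D` over `ℚ`, where the `G k`
are the homogenisations of polynomials `g k` with integral coefficients, of even degrees, pairwise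
coprime, `h` is a polynomial with integral coefficients, coprime to the `g k`, and `H` its
homogenisation (`Admissible`, `Family`). For an integer `a` and `m ≥ 2`, `m ∣ deg h`, we consider the curve

  `C a : b y ^ 2 = ∏ k, G k (z, w)`, `a x ^ m = H (z, w)`,

a cyclic covering of `D`; for different `a` these coverings are twists of each other, for example the
curves `b y ^ 2 = ∏ g k (a x ^ m)`. The integer `a` is good for the family (`GoodTwist`) if for all `m`:

* every adelic point of `C a` which is orthogonal to the classes `(G k, e)` of the Brauer group of `C a`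
  has at all places the type (the values of the `G k` modulo squares) of a persistent class, a family
  `n k` of squarefree integers with `∏ n k = b t ^ 2`, such that every automorphism `σ` of the field of
  algebraic numbers fixes a zero `β` of `h` and numbers `y k` with `g k (β) = n k * y k ^ 2`;
* if all persistent classes are those of integral zeros of `h` (for instance if the zeros of `h` are one
  or two integers), it has at all places the type of the SAME rational point of `C a`, which lies over an
  integral zero of `h`. So the rational points are dense in the Brauer-Manin set as far as the types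
  can see. If there is no persistent class, the Brauer-Manin set is empty and Stoll's conjecture is true
  for `C a`.

Known (starting results): 100% of the squarefree `a`, `|a| ≤ X`; Lebesgue-almost all metric sequences;
convergents of continued fraction normal numbers.

**Theorem.** Let `ι` be a finite set; vectors of integers are indexed by `ι`, and the twists are those by
`a = λ(c) + v`, `λ ≠ 0` a linear form on `ℤ ^ ι` with integral coefficients, `v` an integer.

0. (Residue classes.) For each family, each `λ ≠ 0` and each `v` and for all `M ≥ 1`, `ε > 0` there is a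
   modulus `q` prime to `M` such that for at least `(1 - ε) q ^ |ι|` of the residue classes modulo `q` ALL
   vectors `c` in these classes are good: `λ(c) + v` is good. So the bad `c` have upper Banach density
   zero: in all boxes whose sides are larger than a bound which depends on `ε` the proportion of
   the bad `c` is at most `ε`. Every sequence of integral vectors which for some `M` is uniformly
   distributed modulo all `q` prime to `M` is good (`Good`): there is ONE set `E` of indices of natural
   density zero, such that for ALL families, all `λ ≠ 0` and all `v` the twist by `λ(c_n) + v` is good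
   for all but finitely many `n ∉ E`.
1. (Random digits, uniformly.) Let `d_{ij}` be independent random integers, `|d_{ij}| ≤ D`, with arbitrary
   distributions, only no value has a probability larger than `1 - η`. Let `γ_{ij} ≠ 0` be ANY integers
   without prime factors larger than `D`, and `u_i` any integers. For every finite set of families, `λ`
   and `v`, with a probability larger than `1 - ε` all of them are good for
   `x = (u_i + ∑_{j < K} γ_{ij} d_{ij})_i`, if `K ≥ K₀`, where `K₀` depends only on the finite set, on `D`,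
   `η` and `ε`. Examples: `γ_{ij} = b ^ j` (integers with random digits in any base `b ≤ D`), or
   `γ_{ij} = b ^ {k_{ij}}` (the digits of a given integer are replaced by random digits in `K` arbitrary
   places), mixed radices, random sums of numbers `2 ^ k 3 ^ l`.
2. (Almost surely.) Let `d_{i0}, d_{i1}, …` be as in 1. Let `γ_{nij}` be ANY such integers, `u_{ni}` any
   integers, and `x_n = (u_{ni} + ∑_{j < n} γ_{nij} d_{ij})_i`, for example the truncations of an infinite
   sequence of digits in both orders, `∑_{j < n} d_j b ^ (n - 1 - j)` and `∑_{j < n} d_j b ^ j`. Almost surely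
   the sequence `x_n` is good.
3. (Normal numbers.) Let the vector `α` of real numbers be normal to the base `b` (`Normal`; for one number
   this is the usual notion). Then the sequence `⌊b ^ n α_i⌋` of its prefixes is good. For example, for
   Champernowne's number and all families the twists by the integers `1`, `12`, `123`, `1234`, … are good,
   with the exception of a set of density zero. The condition on `α` does not depend on the curves.
4. (Fourier decay.) Let `ν` be a finite measure on `ℝ ^ ι` with `|ν^(ξ)| ≤ C |ξ| ^ (-δ)`, `δ > 0` arbitrarily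
   small, for example a measure on a Salem set of Lebesgue measure zero, a smooth measure on a sphere
   or on the curve `(t, t ^ 2, …, t ^ k)`. Let `a_{i0}, a_{i1}, …` be ANY sequences of real numbers with
   mutual distances at least `δ₀ > 0` (e.g. `n!`, the primes, `2 ^ n`), and let `β_{in}` be any real numbers.
   Then the sequence `⌊a_{in} α_i + β_{in}⌋` is good for `ν`-almost all `α`. So the exceptional set has
   Fourier dimension zero.

Proof. A set of integral vectors is pronull if its closure in the product of the `ℤ_p ^ ι` over the primes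
`p ∤ M` has Haar measure zero, for all `M`. By the starting library the bad vectors are a pronull set (here
also for affine forms, which gives 0). Let `q` be prime to `(2 D)!`. The exponential sum
modulo `q` of a random integer `d` as above is at most `(1 - κ η)^(1/2)` in absolute value with `κ > 0`
depending on `q`, since different values of `d` are different modulo all prime factors of `q`. The
exponential sums of `x` are at most the `K`-th powers of these numbers, so that `x` is equidistributed
modulo `q`; those of the differences `x_n - x_m`, `m < n`, are at most the `(n - m)`-th powers, and the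
second moment gives 2. Let `α` be normal and `y_n = b ^ n λ(α) / q`. The mean of
`|(1/K) ∑_{k < K} e(y_{n+k})| ^ 2` is at most the mean of the sum of such terms for
`(b ^ n λ(α) + j) / q`, `j < q`, which is a trigonometric polynomial in `b ^ n λ(α)` with the mean `q / K`; so the
mean of `e(y_n)` is zero (this is Wall's theorem) and the prefixes are equidistributed modulo `q`.
For 4 the second moment of the exponential sum of length `N` is `O(N ^ (2 - δ/2))`.
-/

set_option autoImplicit false

namespace Pool.Agent.HP25.Kept.RandomNormalMetricTwists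

open Polynomial MeasureTheory ProbabilityTheory Filter Topology
open Pool.Agent.Results.MP_ab3ecb_nt.TypesOfOrthogonalPoints (Admissible)
open Pool.Agent.Results.MP_ab3ecb_nt.MetricSequences (GoodTwist DensityZero goodTwist_of)

/-- the data `b`, `g`, `h` of a family of twists -/
structure Family where
  r : ℕ
  b : ℤ
  g : Fin r → ℤ[X]
  h : ℤ[X]
  adm : Admissible b g h

/-- the twist by `a` has the property `GoodTwist` -/
def Family.Good (F : Family) (a : ℤ) : Prop := GoodTwist F.b F.g F.h a

/-- the `d i j` are independent random integers of absolute value at most `D`, and no value has a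
probability larger than `1 - η` -/
structure Digits {ι Ω : Type} [MeasurableSpace Ω] (P : Measure Ω) (D : ℕ) (η : ℝ) (d : ι → ℕ → Ω → ℤ) : Prop where
  meas : ∀ i j, Measurable (d i j)
  indep : iIndepFun (fun ij : ι × ℕ => d ij.1 ij.2) P
  bdd : ∀ i j ω, |d i j ω| ≤ D
  atom : ∀ i j a, P.real {ω | d i j ω = a} ≤ 1 - η

/-- `γ` is not zero and has no prime factor larger than `D` -/
def Smooth (D : ℕ) (γ : ℤ) : Prop := γ ≠ 0 ∧ ∀ p : ℕ, p.Prime → (p : ℤ) ∣ γ → p ≤ D

/-- the random vector with the components `u i + ∑_{j < K} γ i j * d i j` -/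
def rsum {ι Ω : Type} (u : ι → ℤ) (γ : ι → ℕ → ℤ) (K : ℕ) (d : ι → ℕ → Ω → ℤ) (ω : Ω) (i : ι) : ℤ :=
  u i + ∑ j ∈ Finset.range K, γ i j * d i j ω

/-- `exp (2 π i x)` -/
noncomputable def e (x : ℝ) : ℂ := Complex.exp (2 * Real.pi * x * Complex.I)

/-- The vector `α` is normal to the base `b`: the sequence `b ^ n α` is uniformly distributed modulo `1`
(Weyl's criterion). -/
def Normal {ι : Type} [Fintype ι] (b : ℕ) (α : ι → ℝ) : Prop :=
  ∀ h : ι → ℤ, h ≠ 0 →
    Tendsto (fun N : ℕ => (1 / (N : ℂ)) * ∑ n ∈ Finset.range N, e (∑ i, (h i : ℝ) * ((b : ℝ) ^ n * α i))) atTop (𝓝 0)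

/-- the Fourier transform of `ν` has power decay (in the maximum norm) -/
def FourierDecay {ι : Type} [Fintype ι] (ν : Measure (ι → ℝ)) : Prop :=
  ∃ C δ : ℝ, 0 < δ ∧ ∀ ξ : ι → ℝ, ξ ≠ 0 → ‖∫ α, e (∑ i, ξ i * α i) ∂ν‖ ≤ C * ‖ξ‖ ^ (-δ)

/-- The twists by all affine forms of the vectors `c 0, c 1, …`, for ALL families of curves, are good,
apart from the indices in one set of density zero and finitely many more, depending on the family and
the affine form. -/
def Good {ι : Type} [Fintype ι] (c : ℕ → ι → ℤ) : Prop :=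
  ∃ E : Set ℕ, DensityZero E ∧ ∀ (F : Family) (lam : ι → ℤ) (v : ℤ), lam ≠ 0 →
    {n : ℕ | n ∉ E ∧ ¬ F.Good (∑ i, lam i * c n i + v)}.Finite

/-- for all `q` prime to `M` the vectors `c 0, c 1, …` are uniformly distributed modulo `q` -/
def Equidistributed {ι : Type} [Fintype ι] (M : ℕ) (c : ℕ → ι → ℤ) : Prop :=
  ∀ q : ℕ, 0 < q → q.Coprime M → ∀ r : ι → ZMod q,
    Tendsto (fun N : ℕ => (({n : ℕ | n < N ∧ (fun i => (c n i : ZMod q)) = r}.ncard : ℕ) : ℝ) / (N : ℝ)) atTop
      (𝓝 (((q : ℝ) ^ Fintype.card ι)⁻¹))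

lemma pro {ι : Type} [Fintype ι] (F : Family) {lam : ι → ℤ} (hlam : lam ≠ 0) (v : ℤ) :
    Pool.Agent.N24.RW.ProNull {c : ι → ℤ | ¬ F.Good (∑ i, lam i * c i + v)} := by
  obtain ⟨PP, h1, h2, h3⟩ := goodTwist_of F.adm
  refine Pool.Agent.N24.RW.Clo.mono ?_ (Pool.Agent.HP25.TW.pro_hits h1 h2 hlam v)
  intro c hc hall
  exact hc (h3 _ hall)

instance : Countable Family := by
  have := Pool.Agent.N676.OR.countable_poly
  refine Function.Injective.countable (β := Σ r : ℕ, ℤ × (Fin r → ℤ[X]) × ℤ[X])
    (f := fun F => ⟨F.r, F.b, F.g, F.h⟩) ?_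
  rintro ⟨r, b, g, h, hA⟩ ⟨r', b', g', h', hA'⟩ heq
  obtain ⟨rfl, h1⟩ := Sigma.mk.inj_iff.1 heq
  have h2 := eq_of_heq h1
  simp only [Prod.mk.injEq] at h2
  obtain ⟨rfl, rfl, rfl⟩ := h2
  rfl

/-- the families with an affine form -/
abbrev Idx (ι : Type) : Type := {x : Family × (ι → ℤ) × ℤ // x.2.1 ≠ 0}

lemma good_of {ι : Type} [Fintype ι] (c : ℕ → ι → ℤ)
    (h : Pool.Agent.HP25.TW.OneSet c (fun x : Idx ι => {c : ι → ℤ | ¬ x.1.1.Good (∑ i, x.1.2.1 i * c i + x.1.2.2)})) :
    Good c := by
  obtain ⟨E, hE, h1⟩ := h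
  exact ⟨E, hE, fun F lam v hlam => h1 ⟨(F, lam, v), hlam⟩⟩

theorem result (ι : Type) [Fintype ι] :
    -- 0. residue classes
    (∀ (F : Family) (lam : ι → ℤ) (v : ℤ), lam ≠ 0 → ∀ M : ℕ, 0 < M → ∀ ε : ℝ, 0 < ε →
      ∃ q : ℕ, 0 < q ∧ q.Coprime M ∧ ∃ R : Set (ι → ZMod q), (1 - ε) * (q : ℝ) ^ Fintype.card ι ≤ (R.ncard : ℝ) ∧
        ∀ c : ι → ℤ, (fun i => (c i : ZMod q)) ∈ R → F.Good (∑ i, lam i * c i + v)) ∧
    (∀ (M : ℕ) (c : ℕ → ι → ℤ), 0 < M → Equidistributed M c → Good c) ∧
    -- 1. random sums, uniformly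
    (∀ 𝓕 : Set (Family × (ι → ℤ) × ℤ), 𝓕.Finite → (∀ x ∈ 𝓕, x.2.1 ≠ 0) → ∀ (D : ℕ) (η ε : ℝ), 0 < η → 0 < ε →
      ∃ K₀ : ℕ, ∀ K ≥ K₀, ∀ (Ω : Type) [MeasurableSpace Ω] (P : Measure Ω) [IsProbabilityMeasure P] (d : ι → ℕ → Ω → ℤ),
        Digits P D η d → ∀ γ : ι → ℕ → ℤ, (∀ i, ∀ j < K, Smooth D (γ i j)) → ∀ u : ι → ℤ,
        P.real {ω | ∃ x ∈ 𝓕, ¬ x.1.Good (∑ i, x.2.1 i * rsum u γ K d ω i + x.2.2)} ≤ ε) ∧
    -- 2. almost surely
    (∀ (Ω : Type) [MeasurableSpace Ω] (P : Measure Ω) [IsProbabilityMeasure P] (D : ℕ) (η : ℝ) (d : ι → ℕ → Ω → ℤ),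
      0 < η → Digits P D η d → ∀ γ : ℕ → ι → ℕ → ℤ, (∀ n i, ∀ j < n, Smooth D (γ n i j)) → ∀ u : ℕ → ι → ℤ,
      ∀ᵐ ω ∂P, Good fun n => rsum (u n) (γ n) n d ω) ∧
    -- 3. normal numbers
    (∀ (b : ℕ) (α : ι → ℝ), 2 ≤ b → Normal b α → Good fun n i => ⌊(b : ℝ) ^ n * α i⌋) ∧
    -- 4. Fourier decay
    (∀ (ν : Measure (ι → ℝ)) [IsFiniteMeasure ν], FourierDecay ν → ∀ (a : ι → ℕ → ℝ) (δ₀ : ℝ), 0 < δ₀ →
      (∀ i m n, m ≠ n → δ₀ ≤ |a i m - a i n|) → ∀ β : ι → ℕ → ℝ,
      ∀ᵐ α ∂ν, Good fun n i => ⌊a i n * α i + β i n⌋) := by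
  classical
  have hB : ∀ x : Idx ι, Pool.Agent.N24.RW.ProNull {c : ι → ℤ | ¬ x.1.1.Good (∑ i, x.1.2.1 i * c i + x.1.2.2)} :=
    fun x => pro x.1.1 x.2 x.1.2.2
  have hfree : ∀ {Ω : Type} [MeasurableSpace Ω] {P : Measure Ω} {D : ℕ} {η : ℝ} {d : ι → ℕ → Ω → ℤ},
      Digits P D η d → Pool.Agent.HP25.TW.Free P D η d := fun h => ⟨h.meas, h.indep, h.bdd, h.atom⟩
  refine ⟨?_, ?_, ?_, ?_, ?_, ?_⟩
  · intro F lam v hlam M hM ε hε
    obtain ⟨q, hq, hqM, h⟩ := pro F hlam v M hM ε hε
    refine ⟨q, hq, hqM, ((fun (c : ι → ℤ) (i : ι) => (c i : ZMod q)) '' {c : ι → ℤ | ¬ F.Good (∑ i, lam i * c i + v)})ᶜ, ?_, ?_⟩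
    · have : NeZero q := ⟨hq.ne'⟩
      have h1 := Set.ncard_add_ncard_compl ((fun (c : ι → ℤ) (i : ι) => (c i : ZMod q)) '' {c : ι → ℤ | ¬ F.Good (∑ i, lam i * c i + v)})
      rw [Pool.Agent.N24.RW.Clo.card_pi] at h1
      have h2 : ((((fun (c : ι → ℤ) (i : ι) => (c i : ZMod q)) '' {c : ι → ℤ | ¬ F.Good (∑ i, lam i * c i + v)}).ncard : ℕ) : ℝ) +
          ((((fun (c : ι → ℤ) (i : ι) => (c i : ZMod q)) '' {c : ι → ℤ | ¬ F.Good (∑ i, lam i * c i + v)})ᶜ.ncard : ℕ) : ℝ) =
          (q : ℝ) ^ Fintype.card ι := by exact_mod_cast h1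
      linarith
    · intro c hc
      by_contra hbad
      exact hc ⟨c, hbad, rfl⟩
  · intro M c hM hc
    exact good_of _ ((Pool.Agent.HP25.TW.equi_tendsto c hc).oneSet hB hM)
  · intro 𝓕 hF hne D η ε hη hε
    obtain ⟨K₀, hK₀⟩ := Pool.Agent.HP25.TW.uniform _ hB (F := {x : Idx ι | x.1 ∈ 𝓕})
      (hF.preimage (Subtype.val_injective.injOn)) D hη hε
    refine ⟨K₀, fun K hK Ω _ P _ d hd γ hγ u => ?_⟩
    refine le_trans (measureReal_mono ?_ (measure_ne_top P _)) (hK₀ K hK Ω P d (hfree hd) γ hγ u)
    rintro ω ⟨x, hx, hbad⟩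
    exact ⟨⟨x, hne x hx⟩, hx, hbad⟩
  · intro Ω _ P _ D η d hη hd γ hγ u
    filter_upwards [Pool.Agent.HP25.TW.ae_sums (hfree hd) hη γ hγ u] with ω hω
    exact good_of _ (hω.oneSet hB (Nat.factorial_pos _))
  · intro b α hb hα
    exact good_of _ (Pool.Agent.HP25.TW.Equi.oneSet hB one_pos (Pool.Agent.HP25.TW.normal hb hα))
  · intro ν _ hν a δ₀ hδ₀ ha β
    filter_upwards [Pool.Agent.HP25.TW.decay hν a hδ₀ ha β] with α hα
    exact good_of _ (hα.oneSet hB one_pos)

end Pool.Agent.HP25.Kept.RandomNormalMetricTwists
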